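import Pool.Agent.Lib.MP_57bda5_lc.Glue

set_option autoImplicit false

/-!
There is no algorithm that decides, given a finite list of group words, whether the list is
functionally complete on every group.
-/

namespace Pool.Agent.Results.MP_57bda5_lc.CompletenessUndecidable

open Pool.Agent.Lib.MP_57bda5_lc

universe u

/-- The set of finite lists of words that are functionally complete on every group is not
decidable. -/
theorem result : ¬ ComputablePred fun B : List GWord => CompleteOnEveryGroup.{u} B :=
  undecidable.{u} hasModel

end Pool.Agent.Results.MP_57bda5_lc.CompletenessUndecidable
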